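import Pool.Agent.Q145.LQ.Stm

/-!
# Project LQ (helper145): an elementary inequality
-/

set_option autoImplicit false

namespace Pool.Agent.Q275.LQ

open Finset

lemma abs_term (d r g : ℕ) (h1 : r ≤ d) (h2 : r + 1 ≤ g) :
    (((g : ℝ) - r) ^ 4)⁻¹ ≤ ((g : ℝ) ^ 4)⁻¹ * (1 + ((2 * d : ℝ) ^ 5 + 128) * (r / g)) := by
  have hg : (0 : ℝ) < g := by
    have : 0 < g := by omega
    exact_mod_cast this
  have hr0 : (0 : ℝ) ≤ r := Nat.cast_nonneg r
  have hgr : (1 : ℝ) ≤ (g : ℝ) - r := by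
    have : (r : ℝ) + 1 ≤ g := by exact_mod_cast h2
    linarith
  have hgr0 : 0 < ((g : ℝ) - r) := by linarith
  have hd : (r : ℝ) ≤ d := by exact_mod_cast h1
  rw [inv_le_iff_one_le_mul₀ (by positivity)]
  have e : ((g : ℝ) ^ 4)⁻¹ * (1 + ((2 * d : ℝ) ^ 5 + 128) * (r / g)) * ((g : ℝ) - r) ^ 4 =
      (1 + ((2 * d : ℝ) ^ 5 + 128) * (r / g)) * (((g : ℝ) - r) / g) ^ 4 := by
    field_simp
  rw [e]
  rcases le_or_gt (2 * d) g with hc | hc
  · -- the main case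
    have hc' : 2 * (d : ℝ) ≤ g := by exact_mod_cast hc
    set t : ℝ := r / g with ht
    have ht0 : 0 ≤ t := by positivity
    have ht1 : t ≤ 1 / 2 := by
      rw [ht, div_le_iff₀ hg]; linarith
    have e2 : ((g : ℝ) - r) / g = 1 - t := by rw [ht]; field_simp
    rw [e2]
    have hC : 1 + 128 * t ≤ 1 + ((2 * d : ℝ) ^ 5 + 128) * t := by
      have : 0 ≤ (2 * d : ℝ) ^ 5 * t := by positivity
      linarith
    have h4 : 0 ≤ (1 - t) ^ 4 := by positivity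
    refine le_trans ?_ (mul_le_mul_of_nonneg_right hC h4)
    rcases le_total t (1 / 5) with h5 | h5
    · have h6 : 1 - 4 * t ≤ (1 - t) ^ 4 := by nlinarith [sq_nonneg t, sq_nonneg (t * (t - 2))]
      nlinarith
    · have h6 : (1 / 16 : ℝ) ≤ (1 - t) ^ 4 := by
        calc (1 / 16 : ℝ) = (1 / 2) ^ 4 := by norm_num
          _ ≤ (1 - t) ^ 4 := by
            apply pow_le_pow_left₀ (by norm_num)
            linarith
      have h7 : (16 : ℝ) ≤ 1 + 128 * t := by linarith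
      nlinarith
  · rcases Nat.eq_zero_or_pos r with h0 | h0
    · subst h0
      simp only [Nat.cast_zero, zero_div, mul_zero, add_zero, sub_zero, one_mul]
      rw [div_self hg.ne']
      norm_num
    · have h0' : (1 : ℝ) ≤ r := by exact_mod_cast h0
      have hc' : (g : ℝ) ≤ 2 * d := by exact_mod_cast hc.le
      have h5 : (g : ℝ) ^ 5 ≤ (2 * d : ℝ) ^ 5 := pow_le_pow_left₀ hg.le hc' 5
      have e3 : (1 + ((2 * d : ℝ) ^ 5 + 128) * (r / g)) * (((g : ℝ) - r) / g) ^ 4 =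
          ((g : ℝ) + ((2 * d : ℝ) ^ 5 + 128) * r) * ((g : ℝ) - r) ^ 4 / g ^ 5 := by
        field_simp
      rw [e3, le_div_iff₀ (by positivity), one_mul]
      have h6 : (1 : ℝ) ≤ ((g : ℝ) - r) ^ 4 := one_le_pow₀ hgr
      have h7 : (2 * d : ℝ) ^ 5 ≤ ((g : ℝ) + ((2 * d : ℝ) ^ 5 + 128) * r) := by
        have : 0 ≤ (2 * d : ℝ) ^ 5 := by positivity
        nlinarith
      calc (g : ℝ) ^ 5 ≤ (2 * d : ℝ) ^ 5 := h5
        _ ≤ ((g : ℝ) + ((2 * d : ℝ) ^ 5 + 128) * r) := h7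
        _ = ((g : ℝ) + ((2 * d : ℝ) ^ 5 + 128) * r) * 1 := (mul_one _).symm
        _ ≤ _ := by
          apply mul_le_mul_of_nonneg_left h6
          positivity

end Pool.Agent.Q275.LQ

namespace Pool.Agent.Q145.LQ

open Finset

/-- JOB ABS -/
theorem t_ABS : S_ABS := by
  intro d
  refine ⟨(2 * d : ℝ) ^ 5 + 128, by positivity, ?_⟩
  intro ι U r g κ hκ hU hs
  rcases U.eq_empty_or_nonempty with rfl | hne
  · simp
  obtain ⟨u0, hu0⟩ := hne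
  have hg : (0 : ℝ) < g := by
    have : 0 < g := by have := (hU u0 hu0).2; omega
    exact_mod_cast this
  set C : ℝ := (2 * d : ℝ) ^ 5 + 128 with hC
  have hC0 : 0 ≤ C := by positivity
  have hc0 : (0 : ℝ) ≤ U.card := Nat.cast_nonneg _
  have h1 : ∑ u ∈ U, (((g : ℝ) - r u) ^ 4)⁻¹ ≤ ((g : ℝ) ^ 4)⁻¹ * ((1 + C * κ) * U.card) := by
    calc ∑ u ∈ U, (((g : ℝ) - r u) ^ 4)⁻¹ ≤ ∑ u ∈ U, ((g : ℝ) ^ 4)⁻¹ * (1 + C * (r u / g)) :=
          sum_le_sum fun u hu => Pool.Agent.Q275.LQ.abs_term d (r u) g (hU u hu).1 (hU u hu).2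
      _ = ((g : ℝ) ^ 4)⁻¹ * (U.card + C * ((∑ u ∈ U, (r u : ℝ)) / g)) := by
          rw [← mul_sum, sum_add_distrib, ← mul_sum, ← sum_div, sum_const, nsmul_eq_mul, mul_one]
      _ ≤ ((g : ℝ) ^ 4)⁻¹ * ((1 + C * κ) * U.card) := by
          apply mul_le_mul_of_nonneg_left _ (by positivity)
          have h2 : (∑ u ∈ U, (r u : ℝ)) / g ≤ κ * U.card := by
            rw [div_le_iff₀ hg]; exact hs
          nlinarith [mul_le_mul_of_nonneg_left h2 hC0]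
  have h2 : (U.card : ℝ) * ((g : ℝ) ^ 2)⁻¹ ≤ ∑ u ∈ U, (((g : ℝ) - r u) ^ 2)⁻¹ := by
    rw [← nsmul_eq_mul, ← sum_const]
    refine sum_le_sum fun u hu => ?_
    have hgr : (1 : ℝ) ≤ (g : ℝ) - r u := by
      have : (r u : ℝ) + 1 ≤ g := by exact_mod_cast (hU u hu).2
      linarith
    have hr0 : (0 : ℝ) ≤ r u := Nat.cast_nonneg _
    apply inv_anti₀ (by positivity)
    exact pow_le_pow_left₀ (by linarith) (by linarith) 2
  have h3 : ((U.card : ℝ) * ((g : ℝ) ^ 2)⁻¹) ^ 2 ≤ (∑ u ∈ U, (((g : ℝ) - r u) ^ 2)⁻¹) ^ 2 :=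
    pow_le_pow_left₀ (by positivity) h2 2
  calc (U.card : ℝ) * ∑ u ∈ U, (((g : ℝ) - r u) ^ 4)⁻¹ ≤
        U.card * (((g : ℝ) ^ 4)⁻¹ * ((1 + C * κ) * U.card)) := mul_le_mul_of_nonneg_left h1 hc0
    _ = (1 + C * κ) * ((U.card : ℝ) * ((g : ℝ) ^ 2)⁻¹) ^ 2 := by
        rw [mul_pow, inv_pow, ← pow_mul]
        ring
    _ ≤ _ := mul_le_mul_of_nonneg_left h3 (by positivity)

end Pool.Agent.Q145.LQ
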