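import Pool.Agent.Q145.LQ.Stm2
import Pool.Agent.Q145.LS.All

/-!
# Project LQ: the analytic input at all scales between `X` and `z X` (ANQ)

Adapted from `Pool/Agent/Q145/LS/An.lean` (lemma `anL`).
-/

set_option autoImplicit false

namespace Pool.Agent.Q145.LQ

open Finset Filter
open Pool.Agent.Q145.SZ Pool.Agent.Q145.LS

/-- logarithms at the scale `Z` between `X` and `z X` -/
lemma scaleZ {z X Z : ℕ} (hl : 64 ≤ Real.log (Real.log X)) (hz : 64 * Real.log (Real.log X) ≤ z) (hzL : 64 * z * Real.log (Real.log X) ≤ Real.log X)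
    (hZ1 : X ≤ Z) (hZ2 : Z ≤ z * X) : Real.log X ≤ Real.log (Z : ℝ) ∧ Real.log (Z : ℝ) ≤ 2 * Real.log X ∧
      Real.log (Real.log X) ≤ Real.log (Real.log (Z : ℝ)) ∧ Real.log (Real.log (Z : ℝ)) ≤ 2 * Real.log (Real.log X) ∧
      36 * Real.log (Z : ℝ) ≤ 49 * Real.log X := by
  obtain ⟨hL0, hLM, hzM, hzL', hzl, hXe, hLe, hl1, hlL⟩ := elem (C := 64) (M := 64) le_rfl (by norm_num) hl hz hzL
  have hX0 : (0 : ℝ) < X := by rw [hXe]; exact Real.exp_pos _
  have hZ0 : (0 : ℝ) < Z := lt_of_lt_of_le hX0 (by exact_mod_cast hZ1)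
  have hz0 : (0 : ℝ) < z := by linarith
  have h1 : Real.log (Z : ℝ) ≤ Real.log z + Real.log X := by
    rw [← Real.log_mul hz0.ne' hX0.ne']
    exact Real.log_le_log hZ0 (by exact_mod_cast hZ2)
  have h4 : Real.log z ≤ z := (Real.log_le_sub_one_of_pos hz0).trans (by linarith)
  have h7 : 4096 * (z : ℝ) ≤ Real.log X := by
    refine le_trans ?_ hzL
    nlinarith
  have h6 : Real.log X ≤ Real.log (Z : ℝ) := Real.log_le_log hX0 (by exact_mod_cast hZ1)
  have h5 : Real.log (Z : ℝ) ≤ 2 * Real.log X := by linarith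
  refine ⟨h6, h5, Real.log_le_log hL0 h6, ?_, by linarith⟩
  have h7 := Real.log_le_log (by linarith) h5
  rw [Real.log_mul (by norm_num) hL0.ne'] at h7
  have h8 : Real.log 2 ≤ 1 := by
    have := Real.log_le_sub_one_of_pos (by norm_num : (0 : ℝ) < 2)
    linarith
  linarith

theorem anQ (ms : S_MS') (eq : S_EQ2) (h2 : S_H2') (pb : S_PWB) : S_ANQ := by
  intro A
  obtain ⟨b, A', C₁, X₁, hh2⟩ := h2 A
  obtain ⟨Cm, Xm, hCm, hms⟩ := ms (max A A')
  refine ⟨b + 1, 64 + 2 * C₁ + 4 * (b + 1) * Cm + X₁ + Xm, by omega, ?_, ?_⟩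
  · have : 0 < 4 * ((b : ℝ) + 1) * Cm := by positivity
    have h2 : (0 : ℝ) ≤ 2 * C₁ := by positivity
    have h3 : (0 : ℝ) ≤ X₁ := by positivity
    have h4 : (0 : ℝ) ≤ Xm := by positivity
    linarith
  intro z X ω T hl hz hzL hω hω4 hωL hT hTz hTL hZF Z hZ1 hZ2
  set C₀ : ℝ := 64 + 2 * C₁ + 4 * (b + 1) * Cm + X₁ + Xm with hC₀
  have q1 : 0 < 4 * ((b : ℝ) + 1) * Cm := by positivity
  have q2 : (0 : ℝ) ≤ 2 * C₁ := by positivity
  have q3 : (0 : ℝ) ≤ X₁ := by positivity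
  have q4 : (0 : ℝ) ≤ Xm := by positivity
  have q5 : 2 * Cm ≤ 4 * ((b : ℝ) + 1) * Cm := by
    have : (0 : ℝ) ≤ b := by positivity
    nlinarith
  have hC64 : 64 ≤ C₀ := by linarith
  obtain ⟨hL0, hLM, hzM, hzL', hzl, hXe, hLe, hl1, hlL⟩ := elem (C := C₀) (M := C₀) hC64 (by linarith) hl hz hzL
  obtain ⟨c1, c2, hX3⟩ := ll_conseq (M := C₀) (by linarith) hl
  have hl0 : 0 < Real.log (Real.log X) := by linarith
  have hz0 : (0 : ℝ) < z := by linarith
  have hz64 : 64 * Real.log (Real.log X) ≤ z := le_trans (by gcongr) hz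
  have hzL64 : 64 * z * Real.log (Real.log X) ≤ Real.log X := le_trans (by gcongr) hzL
  have hWe : (PW z : ℝ) ≤ Real.exp (2 * z) := PW_le pb z
  have hW1 := one_le_PW z
  have hF1 : 1 ≤ PW z ^ (b + 1) := Nat.one_le_pow _ _ (PW_pos z)
  have hlogF : Real.log ((PW z ^ (b + 1) : ℕ) : ℝ) ≤ (b + 1) * (2 * z) := by
    push_cast
    rw [Real.log_pow]
    push_cast
    have : Real.log (PW z) ≤ 2 * z := by
      rw [Real.log_le_iff_le_exp (by linarith)]; exact hWe
    gcongr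
  have hlogF0 : 0 ≤ Real.log ((PW z ^ (b + 1) : ℕ) : ℝ) := Real.log_natCast_nonneg _
  have hW2 : 2 * PW z ≤ X := by
    have : 2 * (PW z : ℝ) ≤ X := by
      calc 2 * (PW z : ℝ) ≤ Real.exp z * Real.exp (2 * z) := by
            gcongr; linarith [Real.add_one_le_exp (z : ℝ)]
        _ = Real.exp (3 * z) := by rw [← Real.exp_add]; ring_nf
        _ ≤ Real.exp (Real.log X) := Real.exp_le_exp.2 (by linarith)
        _ = X := hXe.symm
    exact_mod_cast this
  obtain ⟨s1, s2, s3, s4, s7⟩ := scaleZ (by linarith) hz64 hzL64 hZ1 hZ2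
  have key : MSq (max A A') Z (PW z ^ (b + 1)) := by
    have s6 : 0 ≤ Real.log (Real.log (Z : ℝ)) := hl0.le.trans s3
    refine hms Z (PW z ^ (b + 1)) ω T ?_ hF1 ?_ hω hω4 ?_ ?_ ?_ hZF
    · refine le_trans ?_ hZ1
      have : (Xm : ℝ) ≤ X := by linarith
      exact_mod_cast this
    · calc Cm * Real.log ((PW z ^ (b + 1) : ℕ) : ℝ) * Real.log (Real.log (Z : ℝ))
          ≤ Cm * ((b + 1) * (2 * z)) * (2 * Real.log (Real.log X)) := by gcongr
        _ = (4 * (b + 1) * Cm) * (z * Real.log (Real.log X)) := by ring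
        _ ≤ C₀ * (z * Real.log (Real.log X)) := by gcongr; linarith
        _ = C₀ * z * Real.log (Real.log X) := by ring
        _ ≤ Real.log X := hzL
        _ ≤ _ := s1
    · calc Cm * Real.log (Real.log (Z : ℝ)) ≤ Cm * (2 * Real.log (Real.log X)) := by gcongr
        _ = (2 * Cm) * Real.log (Real.log X) := by ring
        _ ≤ C₀ * Real.log (Real.log X) := by gcongr; linarith
        _ ≤ ω * Real.log X := hωL
        _ ≤ _ := by gcongr
    · push_cast
      rw [← pow_mul]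
      calc (PW z : ℝ) ^ ((b + 1) * 60) ≤ (Real.exp (2 * z)) ^ ((b + 1) * 60) := by gcongr
        _ = Real.exp (120 * ((b + 1 : ℕ) : ℝ) * z) := by rw [← Real.exp_nat_mul]; push_cast; ring_nf
        _ ≤ Real.exp (Real.log T) := Real.exp_le_exp.2 hTz
        _ = T := Real.exp_log hT
    · calc Real.exp (6 * √(Real.log (Z : ℝ))) ≤ Real.exp (Real.log T) := by
            apply Real.exp_le_exp.2
            refine le_trans ?_ hTL
            have h3 : √(36 * Real.log (Z : ℝ)) ≤ √(49 * Real.log X) := Real.sqrt_le_sqrt s7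
            rw [show (36 : ℝ) = 6 ^ 2 by norm_num, show (49 : ℝ) = 7 ^ 2 by norm_num, Real.sqrt_mul (by positivity),
              Real.sqrt_mul (by positivity), Real.sqrt_sq (by norm_num), Real.sqrt_sq (by norm_num)] at h3
            exact h3
        _ = T := Real.exp_log hT
  have hWF : PW z ≤ PW z ^ (b + 1) := Nat.le_self_pow (by omega) _
  refine ⟨?_, ?_⟩
  · exact (eq A Z (PW z ^ (b + 1)) (by omega) (msq_mono (by omega) (le_max_left _ _) key) (PW z) hWF (by omega)).2.1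
  · refine hh2 z Z ?_ ?_ ?_ (msq_mono (by omega) (le_max_right _ _) key)
    · refine le_trans ?_ hZ1
      have : (X₁ : ℝ) ≤ X := by linarith
      exact_mod_cast this
    · calc (C₁ : ℝ) * Real.log (Real.log (Z : ℝ)) ≤ C₁ * (2 * Real.log (Real.log X)) := by gcongr
        _ = (2 * C₁) * Real.log (Real.log X) := by ring
        _ ≤ C₀ * Real.log (Real.log X) := by gcongr; linarith
        _ ≤ z := hz
    · have hC1 : (C₁ : ℝ) ≤ C₀ := by linarith
      calc (C₁ : ℝ) * z ≤ C₀ * z := by gcongr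
        _ = C₀ * z * 1 := by ring
        _ ≤ C₀ * z * Real.log (Real.log X) := by gcongr
        _ ≤ Real.log X := hzL
        _ ≤ _ := s1

theorem t_ANQ : S_ANQ := anQ ms' t_EQ2 h2' Pool.Agent.Q111.SZ.t_PWB

end Pool.Agent.Q145.LQ
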