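import Pool.Agent.Q145.LQ.Stm2
import Pool.Agent.Q272.SZ.PWC

/-!
# Project LQ (helper145): Mertens bound for `CC`
-/

set_option autoImplicit false

namespace Pool.Agent.Q145.LQ

open Finset
open Pool.Agent.Q145.SZ

/-- JOB CCB -/
theorem t_CCB : S_CCB := by
  intro C hC
  obtain ⟨D, hD, hpw⟩ := t_PWC
  obtain ⟨m, hm⟩ := exists_nat_ge (C / 18)
  obtain ⟨z0, hz0⟩ := exists_nat_ge (Real.exp (max D 1))
  refine ⟨19 * m, max 2 z0, fun z hz => ?_⟩
  have hz2 : 2 ≤ z := (le_max_left _ _).trans hz
  have hzz : z0 ≤ z := (le_max_right _ _).trans hz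
  have hzr : Real.exp (max D 1) ≤ z := hz0.trans (by exact_mod_cast hzz)
  have hzp : (0 : ℝ) < z := (Real.exp_pos _).trans_le hzr
  have hlog : max D 1 ≤ Real.log z := by rwa [Real.le_log_iff_exp_le hzp]
  have hlD : D ≤ Real.log z := (le_max_left _ _).trans hlog
  have hl1 : 1 ≤ Real.log z := (le_max_right _ _).trans hlog
  constructor
  · unfold CC
    refine Finset.one_le_prod ?_
    intro p _
    have : 0 ≤ C / (p : ℝ) := by positivity
    linarith
  · have h1 : CC C (PW z) ≤ C18 (PW z) ^ m := by
      unfold CC C18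
      rw [← Finset.prod_pow]
      refine Finset.prod_le_prod (fun p _ => by positivity) fun p hp => ?_
      have hp0 : (0 : ℝ) < p := by
        exact_mod_cast (Nat.prime_of_mem_primeFactors hp).pos
      have h2 := one_add_mul_le_pow (a := 18 / (p : ℝ)) (by
        have : 0 ≤ 18 / (p : ℝ) := by positivity
        linarith) m
      refine le_trans ?_ h2
      have h3 : C / p ≤ m * (18 / (p : ℝ)) := by
        rw [mul_div_assoc', div_le_div_iff_of_pos_right hp0]
        rw [div_le_iff₀ (by norm_num)] at hm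
        exact hm
      linarith
    have h4 := (hpw z hz2).2
    have h5 : 0 ≤ C18 (PW z) := by
      unfold C18
      exact Finset.prod_nonneg fun p _ => by positivity
    calc CC C (PW z) ≤ C18 (PW z) ^ m := h1
      _ ≤ (D * Real.log z ^ 18) ^ m := pow_le_pow_left₀ h5 h4 m
      _ ≤ (Real.log z * Real.log z ^ 18) ^ m := by gcongr
      _ = Real.log z ^ (19 * m) := by rw [← pow_succ', ← pow_mul]

end Pool.Agent.Q145.LQ
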